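import Mathlib

/-!
# Free sets, thin sets; thin sets are dense

Every finite set is an initial part of a thin set, for every colouring of the `m`-element sets.
-/

set_option autoImplicit false

namespace Pool.Agent.Lib.MP_afd317_lc

open Filter

/-- `A` is an infinite set which is thin for `g`, a function on the strictly increasing `m`-tuples. -/
def IsThin (m : ℕ) (g : (Fin m → ℕ) → ℕ) (A : Set ℕ) : Prop :=
  A.Infinite ∧ ∃ c : ℕ, ∀ x : Fin m → ℕ, StrictMono x → (∀ i, x i ∈ A) → g x ≠ c

/-- `A` is an infinite set which is free for `f`, a function on the strictly increasing `n`-tuples. -/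
def IsFree (n : ℕ) (f : (Fin n → ℕ) → ℕ) (A : Set ℕ) : Prop :=
  A.Infinite ∧ ∀ x : Fin n → ℕ, StrictMono x → (∀ i, x i ∈ A) → f x ∈ A → ∃ i, f x = x i

/-- a finite colouring has a limit along the ultrafilter -/
lemma exists_lim {K : ℕ} (φ : ℕ → Fin (K + 1)) :
    ∃ a, ∀ᶠ x in (hyperfilter ℕ : Filter ℕ), φ x = a := by
  obtain ⟨a, ha⟩ := Ultrafilter.eq_pure_of_finite ((hyperfilter ℕ).map φ)
  refine ⟨a, ?_⟩
  have h1 : ({a} : Set (Fin (K + 1))) ∈ (hyperfilter ℕ).map φ := by
    rw [ha]
    exact Set.mem_singleton a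
  exact h1

/-- iterated limits -/
noncomputable def limCol {K : ℕ} (c : Finset ℕ → Fin (K + 1)) : ℕ → Finset ℕ → Fin (K + 1)
  | 0, s => c s
  | j + 1, s => (exists_lim (fun x => limCol c j (insert x s))).choose

lemma limCol_succ {K : ℕ} (c : Finset ℕ → Fin (K + 1)) (j : ℕ) (s : Finset ℕ) :
    ∀ᶠ x in (hyperfilter ℕ : Filter ℕ), limCol c j (insert x s) = limCol c (j + 1) s :=
  (exists_lim (fun x => limCol c j (insert x s))).choose_spec

/-- the limit colouring of all sets with at most `m` elements -/
noncomputable def lc {K : ℕ} (c : Finset ℕ → Fin (K + 1)) (m : ℕ) (s : Finset ℕ) : Fin (K + 1) :=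
  limCol c (m - s.card) s

lemma lc_eq {K : ℕ} (c : Finset ℕ → Fin (K + 1)) (m : ℕ) (s : Finset ℕ) (hs : s.card = m) :
    lc c m s = c s := by
  unfold lc
  rw [hs, Nat.sub_self]
  rfl

lemma eventually_notMem (S : Finset ℕ) (u : ℕ) :
    ∀ᶠ x in (hyperfilter ℕ : Filter ℕ), (∀ y ∈ S, y < x) ∧ u ≤ x := by
  have h : {x : ℕ | (∀ y ∈ S, y < x) ∧ u ≤ x}ᶜ.Finite := by
    apply (Set.finite_Iic (S.sup id + u)).subset
    intro x hx
    by_contra h
    apply hx
    rw [Set.mem_Iic, not_le] at h
    refine ⟨fun y hy => ?_, by omega⟩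
    have : y ≤ S.sup id := Finset.le_sup (f := id) hy
    omega
  have := mem_hyperfilter_of_finite_compl h
  exact this

lemma lc_insert {K : ℕ} (c : Finset ℕ → Fin (K + 1)) (m : ℕ) (s : Finset ℕ) (hs : s.card < m) :
    ∀ᶠ x in (hyperfilter ℕ : Filter ℕ), lc c m (insert x s) = lc c m s := by
  have h1 := limCol_succ c (m - s.card - 1) s
  have h2 := eventually_notMem s 0
  filter_upwards [h1, h2] with x hx hx2
  have hxs : x ∉ s := fun h => lt_irrefl x (hx2.1 x h)
  unfold lc
  rw [Finset.card_insert_of_notMem hxs]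
  have e1 : m - (s.card + 1) = m - s.card - 1 := by omega
  have e2 : m - s.card = m - s.card - 1 + 1 := by omega
  rw [e1, hx, ← e2]

lemma exists_next {K : ℕ} (c : Finset ℕ → Fin (K + 1)) (m u : ℕ) (S : Finset ℕ) :
    ∃ x, ((∀ y ∈ S, y < x) ∧ u ≤ x) ∧ ∀ s ∈ S.powerset, s.card < m → lc c m (insert x s) = lc c m s := by
  have h1 := eventually_notMem S u
  have h2 : ∀ᶠ x in (hyperfilter ℕ : Filter ℕ),
      ∀ s ∈ S.powerset, s.card < m → lc c m (insert x s) = lc c m s := by
    rw [Filter.eventually_all_finset]
    intro s _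
    by_cases hs : s.card < m
    · filter_upwards [lc_insert c m s hs] with x hx _ using hx
    · exact Filter.Eventually.of_forall (fun x h => absurd h hs)
  exact (h1.and h2).exists

/-- the increasing sequence of finite sets -/
noncomputable def seqS {K : ℕ} (c : Finset ℕ → Fin (K + 1)) (m u : ℕ) (F : Finset ℕ) : ℕ → Finset ℕ
  | 0 => F
  | i + 1 => insert (exists_next c m u (seqS c m u F i)).choose (seqS c m u F i)

section

variable {K : ℕ} (c : Finset ℕ → Fin (K + 1)) (m u : ℕ) (F : Finset ℕ)

/-- the element added at step `i` -/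
noncomputable def nx (i : ℕ) : ℕ := (exists_next c m u (seqS c m u F i)).choose

lemma nx_spec (i : ℕ) : ((∀ y ∈ seqS c m u F i, y < nx c m u F i) ∧ u ≤ nx c m u F i) ∧
    ∀ s ∈ (seqS c m u F i).powerset, s.card < m →
      lc c m (insert (nx c m u F i) s) = lc c m s :=
  (exists_next c m u (seqS c m u F i)).choose_spec

lemma seqS_succ (i : ℕ) : seqS c m u F (i + 1) = insert (nx c m u F i) (seqS c m u F i) := rfl

lemma seqS_mono : Monotone (seqS c m u F) := by
  apply monotone_nat_of_le_succ
  intro i
  rw [seqS_succ]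
  exact Finset.subset_insert _ _

lemma mem_seqS_iff (i x : ℕ) (hx : x < u) : x ∈ seqS c m u F i ↔ x ∈ F := by
  induction i with
  | zero => rfl
  | succ i ih =>
    rw [seqS_succ, Finset.mem_insert, ih]
    constructor
    · rintro (h | h)
      · have := (nx_spec c m u F i).1.2
        omega
      · exact h
    · exact Or.inr

lemma lc_seqS (hF : ∀ x ∈ F, x < u) (i : ℕ) (s : Finset ℕ) (hs : s ⊆ seqS c m u F i) (hm : s.card ≤ m) :
    lc c m s = lc c m (s.filter (· < u)) := by
  induction i generalizing s with
  | zero =>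
    have : s.filter (· < u) = s := Finset.filter_true_of_mem (fun x hx => hF x (hs hx))
    rw [this]
  | succ i ih =>
    have hn := nx_spec c m u F i
    rw [seqS_succ] at hs
    by_cases hx : nx c m u F i ∈ s
    · set t := s.erase (nx c m u F i) with ht
      have h1 : insert (nx c m u F i) t = s := Finset.insert_erase hx
      have h2 : t ⊆ seqS c m u F i := by
        intro y hy
        rw [ht, Finset.mem_erase] at hy
        exact (Finset.mem_insert.mp (hs hy.2)).resolve_left hy.1
      have h3 : t.card < m := by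
        have : t.card < s.card := Finset.card_erase_lt_of_mem hx
        omega
      have h4 : s.filter (· < u) = t.filter (· < u) := by
        rw [← h1, Finset.filter_insert, if_neg (by have := hn.1.2; omega)]
      rw [h4, ← ih t h2 (by omega), ← h1]
      exact hn.2 t (Finset.mem_powerset.mpr h2) h3
    · apply ih s ?_ hm
      intro y hy
      rcases Finset.mem_insert.mp (hs hy) with h | h
      · exact absurd (h ▸ hy) hx
      · exact h

/-- the infinite set -/
noncomputable def setA : Set ℕ := {x | ∃ i, x ∈ seqS c m u F i}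

lemma setA_infinite : (setA c m u F).Infinite := by
  have h1 : StrictMono (nx c m u F) := by
    apply strictMono_nat_of_lt_succ
    intro i
    apply (nx_spec c m u F (i + 1)).1.1
    rw [seqS_succ]
    exact Finset.mem_insert_self _ _
  apply Set.infinite_of_injective_forall_mem h1.injective
  intro i
  refine ⟨i + 1, ?_⟩
  rw [seqS_succ]
  exact Finset.mem_insert_self _ _

lemma mem_setA_iff (x : ℕ) (hx : x < u) : x ∈ setA c m u F ↔ x ∈ F := by
  constructor
  · rintro ⟨i, hi⟩
    exact (mem_seqS_iff c m u F i x hx).mp hi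
  · intro h
    exact ⟨0, h⟩

lemma exists_subset (s : Finset ℕ) (hs : ∀ x ∈ s, x ∈ setA c m u F) : ∃ i, s ⊆ seqS c m u F i := by
  induction s using Finset.induction_on with
  | empty => exact ⟨0, Finset.empty_subset _⟩
  | insert a s ha ih =>
    obtain ⟨i, hi⟩ := ih (fun x hx => hs x (Finset.mem_insert_of_mem hx))
    obtain ⟨j, hj⟩ := hs a (Finset.mem_insert_self _ _)
    refine ⟨max i j, ?_⟩
    intro y hy
    rcases Finset.mem_insert.mp hy with h | h
    · rw [h]
      exact seqS_mono c m u F (le_max_right i j) hj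
    · exact seqS_mono c m u F (le_max_left i j) (hi h)

end

/-- thin sets are dense: every finite set is an initial part of a thin set -/
theorem exists_thin (m : ℕ) (g : (Fin m → ℕ) → ℕ) (u : ℕ) (P : Set ℕ) :
    ∃ A : Set ℕ, IsThin m g A ∧ ∀ x < u, (x ∈ A ↔ x ∈ P) := by
  classical
  set F : Finset ℕ := (Finset.range u).filter (· ∈ P) with hF
  have hFu : ∀ x ∈ F, x < u := fun x hx => by
    rw [hF, Finset.mem_filter, Finset.mem_range] at hx
    exact hx.1
  set K : ℕ := 2 ^ u with hK
  let c : Finset ℕ → Fin (K + 1) := fun s =>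
    if h : s.card = m then ⟨min (g (s.orderEmbOfFin h)) K, by omega⟩ else 0
  refine ⟨setA c m u F, ⟨setA_infinite c m u F, ?_⟩, ?_⟩
  · -- an omitted colour
    set T : Finset (Fin (K + 1)) := (Finset.range u).powerset.image (lc c m) with hT
    have hTc : T.card < (Finset.univ : Finset (Fin (K + 1))).card := by
      have h1 : T.card ≤ (Finset.range u).powerset.card := Finset.card_image_le
      rw [Finset.card_powerset, Finset.card_range] at h1
      rw [Finset.card_univ, Fintype.card_fin]
      omega
    obtain ⟨col, _, hcol⟩ := Finset.exists_mem_notMem_of_card_lt_card hTc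
    refine ⟨col, ?_⟩
    intro x hx hxA hgx
    set s : Finset ℕ := Finset.univ.image x with hs
    have hsc : s.card = m := by
      rw [hs, Finset.card_image_of_injective _ hx.injective, Finset.card_univ, Fintype.card_fin]
    have hsx : x = s.orderEmbOfFin hsc := Finset.orderEmbOfFin_unique hsc
      (fun i => Finset.mem_image_of_mem x (Finset.mem_univ i)) hx
    obtain ⟨i, hi⟩ := exists_subset c m u F s (by
      intro y hy
      obtain ⟨j, _, rfl⟩ := Finset.mem_image.mp hy
      exact hxA j)
    have h1 := lc_seqS c m u F hFu i s hi hsc.le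
    rw [lc_eq c m s hsc] at h1
    have h2 : c s = col := by
      have h3 : g (s.orderEmbOfFin hsc) = (col : ℕ) := by
        rw [← hsx, hgx]
      have h4 := col.isLt
      simp only [c, dif_pos hsc]
      apply Fin.ext
      change min (g (s.orderEmbOfFin hsc)) K = (col : ℕ)
      rw [h3]
      exact Nat.min_eq_left (by omega)
    apply hcol
    rw [hT, Finset.mem_image]
    refine ⟨s.filter (· < u), ?_, ?_⟩
    · rw [Finset.mem_powerset]
      intro y hy
      rw [Finset.mem_filter] at hy
      exact Finset.mem_range.mpr hy.2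
    · rw [← h1, h2]
  · intro x hx
    rw [mem_setA_iff c m u F x hx, hF, Finset.mem_filter, Finset.mem_range]
    exact ⟨fun h => h.2, fun h => ⟨hx, h⟩⟩

end Pool.Agent.Lib.MP_afd317_lc
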