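import Mathlib

/-!
# A computable function hiding a function whose fibres meet all infinite enumerable sets
-/

set_option autoImplicit false

namespace Pool.Agent.Lib.MP_afd317_lc

open Nat.Partrec (Code)
open Nat.Partrec.Code Filter

/-- the `k`-th requirement, `k = (e, a)`, claims `b` at stage `s`: `b` is one of the first `2 ^ k` values
of the `e`-th partial computable function, and this value is found in `s` steps -/
def Claims (k : ℕ) (q : ℕ × ℕ) : Prop :=
  ∃ j ∈ List.range (2 ^ k), evaln q.2 (Denumerable.ofNat Code (Nat.unpair k).1) j = some q.1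

instance : DecidableRel Claims := fun _ _ => by unfold Claims; infer_instance

/-- `hid b s = a` for the least `k = (e, a) < s` which claims `b` at stage `s`, and `0` if there is none -/
def hid (b s : ℕ) : ℕ :=
  ((((List.range s).filter (fun k => Claims k (b, s))).head?).map (fun k => (Nat.unpair k).2)).getD 0

lemma primrec_two_pow : Primrec (fun k : ℕ => 2 ^ k) := by
  have h : Primrec (fun k : ℕ => (fun x => 2 * x)^[k] 1) :=
    Primrec.nat_iterate Primrec.id (Primrec.const 1)
      ((Primrec.nat_mul.comp (Primrec.const 2) Primrec.snd).to₂)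
  refine h.of_eq (fun k => ?_)
  induction k with
  | zero => rfl
  | succ k ih => rw [Function.iterate_succ_apply', ih, pow_succ]; ring

lemma primrec_claims : PrimrecRel Claims := by
  have h1 : PrimrecRel (fun (j : ℕ) (y : ℕ × (ℕ × ℕ)) =>
      evaln y.2.2 (Denumerable.ofNat Code (Nat.unpair y.1).1) j = some y.2.1) := by
    refine Primrec.eq.comp ?_ ?_
    · refine primrec_evaln.comp (Primrec.pair (Primrec.pair ?_ ?_) Primrec.fst)
      · exact Primrec.snd.comp (Primrec.snd.comp Primrec.snd)
      · exact (Primrec.ofNat Code).comp (Primrec.fst.comp (Primrec.unpair.comp (Primrec.fst.comp Primrec.snd)))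
    · exact Primrec.option_some.comp (Primrec.fst.comp (Primrec.snd.comp Primrec.snd))
  exact h1.exists_mem_list.comp (Primrec.list_range.comp (primrec_two_pow.comp Primrec.fst))
    (Primrec.pair Primrec.fst Primrec.snd)

theorem computable_hid : Computable₂ hid := by
  have h1 := primrec_claims.listFilter
  have h2 : Primrec₂ (fun b s : ℕ => (List.range s).filter (fun k => Claims k (b, s))) :=
    h1.comp (Primrec.list_range.comp Primrec.snd) (Primrec.pair Primrec.fst Primrec.snd)
  have h3 : Primrec₂ hid := by
    unfold hid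
    refine Primrec.option_getD.comp ?_ (Primrec.const 0)
    refine Primrec.option_map (Primrec.list_head?.comp h2) ?_
    exact (Primrec.snd.comp (Primrec.unpair.comp Primrec.snd)).to₂
  exact h3.to_comp

lemma claims_mono {k b s t : ℕ} (h : s ≤ t) (hc : Claims k (b, s)) : Claims k (b, t) := by
  obtain ⟨j, hj, he⟩ := hc
  exact ⟨j, hj, evaln_mono h he⟩

lemma hid_eq {k b s : ℕ} (hk : k < s) (hc : Claims k (b, s)) (hlt : ∀ i < k, ¬ Claims i (b, s)) :
    hid b s = (Nat.unpair k).2 := by
  unfold hid
  have h : ((List.range s).filter (fun k => Claims k (b, s))).head? = some k := by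
    rw [List.head?_filter, List.find?_range_eq_some]
    refine ⟨by simpa using hc, by simpa using hk, fun j hj => ?_⟩
    simpa using hlt j hj
  rw [h]
  rfl

lemma hid_eq_zero {b s : ℕ} (hlt : ∀ i, ¬ Claims i (b, s)) : hid b s = 0 := by
  unfold hid
  have h : (List.range s).filter (fun k => Claims k (b, s)) = [] := by
    rw [List.filter_eq_nil_iff]
    intro k _
    simpa using hlt k
  rw [h]
  rfl

/-- `hid b s` does not depend on `s` for large `s`; if the least `k` ever claiming `b` is `k`, then the
final value is the second component of `k` -/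
lemma hid_lim {b k : ℕ} (hc : ∃ s, Claims k (b, s)) (hlt : ∀ i < k, ∀ s, ¬ Claims i (b, s)) :
    ∀ᶠ s in atTop, hid b s = (Nat.unpair k).2 := by
  obtain ⟨s₀, h0⟩ := hc
  filter_upwards [eventually_ge_atTop (max s₀ (k + 1))] with s hs
  exact hid_eq (by omega) (claims_mono (by omega) h0) (fun i hi => hlt i hi s)

theorem hid_stable (b : ℕ) : ∃ a, ∀ᶠ s in atTop, hid b s = a := by
  classical
  by_cases h : ∃ k, ∃ s, Claims k (b, s)
  · refine ⟨(Nat.unpair (Nat.find h)).2, hid_lim (Nat.find_spec h) ?_⟩
    intro i hi s hs
    exact Nat.find_min h hi ⟨s, hs⟩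
  · push Not at h
    exact ⟨0, Filter.Eventually.of_forall (fun s => hid_eq_zero (fun i => h i s))⟩

/-- every fibre of the limit function meets the range of every injective total computable function -/
theorem exists_hid_eq (φ : ℕ → ℕ) (hφ : Computable φ) (hinj : Function.Injective φ) (a : ℕ) :
    ∃ j, ∀ᶠ s in atTop, hid (φ j) s = a := by
  classical
  obtain ⟨c, hc⟩ := exists_code.mp (Partrec.nat_iff.mp hφ)
  set k : ℕ := Nat.pair (Encodable.encode c) a with hk
  have hcode : Denumerable.ofNat Code (Nat.unpair k).1 = c := by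
    rw [hk, Nat.unpair_pair]
    exact Denumerable.ofNat_encode c
  have hclaim : ∀ j < 2 ^ k, ∃ s, Claims k (φ j, s) := by
    intro j hj
    have h1 : φ j ∈ eval c j := by
      rw [hc]
      exact Part.mem_some _
    obtain ⟨s, hs⟩ := evaln_complete.mp h1
    refine ⟨s, j, List.mem_range.mpr hj, ?_⟩
    rw [hcode]
    exact hs
  -- values claimed by smaller requirements
  let val : ℕ → ℕ → ℕ := fun i j =>
    if h : ∃ b, ∃ s, evaln s (Denumerable.ofNat Code (Nat.unpair i).1) j = some b then h.choose else 0
  have hval : ∀ i j b s, evaln s (Denumerable.ofNat Code (Nat.unpair i).1) j = some b → val i j = b := by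
    intro i j b s h
    have hex : ∃ b, ∃ s, evaln s (Denumerable.ofNat Code (Nat.unpair i).1) j = some b := ⟨b, s, h⟩
    simp only [val, dif_pos hex]
    obtain ⟨s', hs'⟩ := hex.choose_spec
    exact Part.mem_unique (evaln_sound hs') (evaln_sound h)
  by_contra hcon
  -- every value is claimed by a smaller requirement
  have hsmall : ∀ j < 2 ^ k, ∃ i < k, ∃ s, Claims i (φ j, s) := by
    intro j hj
    by_contra h
    push Not at h
    have h1 := hid_lim (hclaim j hj) h
    rw [hk, Nat.unpair_pair] at h1
    exact hcon ⟨j, h1⟩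
  have hsub : (Finset.range (2 ^ k)).image φ ⊆
      (Finset.range k).biUnion (fun i => (Finset.range (2 ^ i)).image (val i)) := by
    intro y hy
    obtain ⟨j, hj, rfl⟩ := Finset.mem_image.mp hy
    obtain ⟨i, hi, s, j', hj', hs⟩ := hsmall j (Finset.mem_range.mp hj)
    rw [Finset.mem_biUnion]
    refine ⟨i, Finset.mem_range.mpr hi, ?_⟩
    rw [Finset.mem_image]
    exact ⟨j', Finset.mem_range.mpr (List.mem_range.mp hj'), hval i j' (φ j) s hs⟩
  have h1 := Finset.card_le_card hsub
  rw [Finset.card_image_of_injective _ hinj, Finset.card_range] at h1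
  have h2 : ((Finset.range k).biUnion (fun i => (Finset.range (2 ^ i)).image (val i))).card ≤
      ∑ i ∈ Finset.range k, 2 ^ i := by
    refine Finset.card_biUnion_le.trans (Finset.sum_le_sum fun i _ => ?_)
    refine Finset.card_image_le.trans ?_
    rw [Finset.card_range]
  have h3 := Nat.geomSum_eq (le_refl 2) k
  rw [h3] at h2
  have h4 : 1 ≤ 2 ^ k := Nat.one_le_two_pow
  omega

end Pool.Agent.Lib.MP_afd317_lc
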