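import Mathlib
import Pool.Agent.Lib.MP_afd317_lc.Dense
import Pool.Agent.Lib.MP_afd317_lc.Fun

/-!
# Enumeration functionals, adaptive sequences of thin set instances, and the search
-/

set_option autoImplicit false

namespace Pool.Agent.Lib.MP_afd317_lc

open Nat.Partrec (Code)
open Nat.Partrec.Code Filter

/-- the string `σ` is an initial segment of the join of `H 0, H 1, …`: its `i`-th bit, `i = (j, x)`,
tells whether `x` is in `H j` -/
def Agrees (σ : List Bool) (H : ℕ → Set ℕ) : Prop :=
  ∀ (i : ℕ) (hi : i < σ.length), (σ[i] = true ↔ (Nat.unpair i).2 ∈ H (Nat.unpair i).1)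

/-- the set enumerated by the functional `E`, a set of pairs `(σ, b)`, from the sequence `H` -/
def Output (E : List Bool × ℕ → Prop) (H : ℕ → Set ℕ) : Set ℕ :=
  {b | ∃ σ, Agrees σ H ∧ E (σ, b)}

/-- `H j` is thin for the `j`-th instance, an arbitrary function of the sets `H i`, `i < j` -/
def Solves (G : (j : ℕ) → (Fin j → Set ℕ) → (m : ℕ) × ((Fin m → ℕ) → ℕ)) (H : ℕ → Set ℕ) : Prop :=
  ∀ j : ℕ, IsThin (G j (fun i => H i)).1 (G j (fun i => H i)).2 (H j)

/-- a sequence built by recursion on the previous sets -/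
noncomputable def build (step : (j : ℕ) → (Fin j → Set ℕ) → Set ℕ) (j : ℕ) : Set ℕ :=
  step j (fun i => build step i.1)
termination_by j
decreasing_by exact i.2

lemma build_eq (step : (j : ℕ) → (Fin j → Set ℕ) → Set ℕ) (j : ℕ) :
    build step j = step j (fun i => build step i.1) := by
  rw [build]

/-- the solutions of an adaptive sequence of thin set instances are dense -/
theorem exists_solution (G : (j : ℕ) → (Fin j → Set ℕ) → (m : ℕ) × ((Fin m → ℕ) → ℕ))
    (σ : List Bool) : ∃ H : ℕ → Set ℕ, Solves G H ∧ Agrees σ H := by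
  classical
  have h : ∀ (j : ℕ) (Z : Fin j → Set ℕ), ∃ A : Set ℕ, IsThin (G j Z).1 (G j Z).2 A ∧
      ∀ x < σ.length, (x ∈ A ↔ x ∈ {x : ℕ | σ[Nat.pair j x]? = some true}) :=
    fun j Z => exists_thin (G j Z).1 (G j Z).2 σ.length _
  choose step hstep using h
  refine ⟨build step, fun j => ?_, ?_⟩
  · have h1 := (hstep j (fun i => build step i.1)).1
    rw [← build_eq step j] at h1
    exact h1
  · intro i hi
    have h1 := (hstep (Nat.unpair i).1 (fun l => build step l.1)).2 (Nat.unpair i).2
      ((Nat.unpair_right_le i).trans_lt hi)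
    rw [← build_eq step (Nat.unpair i).1] at h1
    rw [h1, Set.mem_ofPred_eq, Nat.pair_unpair, List.getElem?_eq_getElem hi]
    simp

/-- the initial segment of length `n` of the join -/
noncomputable def seg (H : ℕ → Set ℕ) (n : ℕ) : List Bool :=
  open Classical in
  (List.range n).map (fun i => decide ((Nat.unpair i).2 ∈ H (Nat.unpair i).1))

lemma length_seg (H : ℕ → Set ℕ) (n : ℕ) : (seg H n).length = n := by
  simp [seg]

lemma agrees_seg (H : ℕ → Set ℕ) (n : ℕ) : Agrees (seg H n) H := by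
  intro i hi
  simp [seg]

lemma take_seg (H : ℕ → Set ℕ) {i n : ℕ} (h : i ≤ n) : (seg H n).take i = seg H i := by
  unfold seg
  rw [← List.map_take, List.take_range, min_eq_left h]

lemma eq_seg {σ : List Bool} {H : ℕ → Set ℕ} (h : Agrees σ H) : σ = seg H σ.length := by
  apply List.ext_getElem
  · rw [length_seg]
  · intro i h1 h2
    have h3 := h i h1
    simp only [seg, List.getElem_map, List.getElem_range]
    rw [Bool.eq_iff_iff, h3]
    simp

lemma Agrees.take {σ : List Bool} {H : ℕ → Set ℕ} (h : Agrees σ H) (i : ℕ) : Agrees (σ.take i) H := by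
  intro l hl
  rw [List.getElem_take]
  exact h l (lt_of_lt_of_le hl (List.length_take_le' i σ))

/-- the possible outputs above a string -/
def Poss (E : List Bool × ℕ → Prop) (σ : List Bool) : Set ℕ :=
  {b | ∃ (ρ : List Bool) (i : ℕ), E ((σ ++ ρ).take i, b)}

/-- the search: a computable strictly increasing sequence of possible outputs above `σ` -/
theorem exists_search (E : List Bool × ℕ → Prop) (hE : REPred E) (σ : List Bool)
    (hinf : (Poss E σ).Infinite) (a : ℕ) :
    ∃ ψ : ℕ → ℕ, Computable ψ ∧ StrictMono ψ ∧ ∀ j, a < ψ j ∧ ψ j ∈ Poss E σ := by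
  classical
  -- a code whose domain is `E`
  have h1 : Partrec (fun q : List Bool × ℕ => (Part.assert (E q) fun _ => Part.some ()).map (fun _ => 0)) :=
    hE.map ((Computable.const 0).to₂)
  obtain ⟨c, hc⟩ := exists_code.mp h1
  have hdom : ∀ q : List Bool × ℕ, E q ↔ ∃ s, (evaln s c (Encodable.encode q)).isSome = true := by
    intro q
    have e1 : E q ↔ (eval c (Encodable.encode q)).Dom := by
      rw [hc]
      simp [Part.assert]
    rw [e1, Part.dom_iff_mem]
    constructor
    · rintro ⟨y, hy⟩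
      obtain ⟨s, hs⟩ := evaln_complete.mp hy
      exact ⟨s, Option.isSome_iff_exists.mpr ⟨y, hs⟩⟩
    · rintro ⟨s, hs⟩
      obtain ⟨y, hy⟩ := Option.isSome_iff_exists.mp hs
      exact ⟨y, evaln_sound hy⟩
  -- the search function
  let f : ℕ → ℕ → Option ℕ := fun n t =>
    (Encodable.decode (α := (List Bool × ℕ) × (ℕ × ℕ)) t).bind (fun w =>
      if n < w.2.1 ∧ (evaln w.2.2 c (Encodable.encode ((σ ++ w.1.1).take w.1.2, w.2.1))).isSome = true
        then some w.2.1 else none)
  have hf : Computable₂ f := by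
    apply Primrec₂.to_comp
    refine Primrec.option_bind (Primrec.decode.comp Primrec.snd) ?_
    have hb : Primrec (fun v : (ℕ × ℕ) × ((List Bool × ℕ) × (ℕ × ℕ)) => v.2.2.1) :=
      Primrec.fst.comp (Primrec.snd.comp Primrec.snd)
    have hs : Primrec (fun v : (ℕ × ℕ) × ((List Bool × ℕ) × (ℕ × ℕ)) => v.2.2.2) :=
      Primrec.snd.comp (Primrec.snd.comp Primrec.snd)
    have ht : Primrec (fun v : (ℕ × ℕ) × ((List Bool × ℕ) × (ℕ × ℕ)) => (σ ++ v.2.1.1).take v.2.1.2) :=
      Primrec.list_take.comp (Primrec.snd.comp (Primrec.fst.comp Primrec.snd))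
        (Primrec.list_append.comp (Primrec.const σ) (Primrec.fst.comp (Primrec.fst.comp Primrec.snd)))
    refine Primrec.ite (PrimrecPred.and ?_ ?_) (Primrec.option_some.comp hb) (Primrec.const none)
    · exact Primrec.nat_lt.comp (Primrec.fst.comp Primrec.fst) hb
    · refine Primrec.eq.comp (Primrec.option_isSome.comp (primrec_evaln.comp
        (Primrec.pair (Primrec.pair hs (Primrec.const c)) (Primrec.encode.comp (Primrec.pair ht hb)))))
        (Primrec.const true)
  have hspec : ∀ n t b, f n t = some b → n < b ∧ b ∈ Poss E σ := by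
    intro n t b h
    simp only [f, Option.bind_eq_some_iff] at h
    obtain ⟨w, _, hw⟩ := h
    split_ifs at hw with hcond
    simp only [Option.some.injEq] at hw
    subst hw
    exact ⟨hcond.1, w.1.1, w.1.2, (hdom _).mpr ⟨w.2.2, hcond.2⟩⟩
  have htot : ∀ n, ∃ t b, b ∈ f n t := by
    intro n
    obtain ⟨b, ⟨ρ, i, hEb⟩, hnb⟩ := hinf.exists_gt n
    obtain ⟨s, hs⟩ := (hdom _).mp hEb
    refine ⟨Encodable.encode ((ρ, i), (b, s)), b, ?_⟩
    simp only [f, Encodable.encodek, Option.bind_some]
    rw [if_pos ⟨hnb, hs⟩]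
    rfl
  have hdomf : ∀ n, (Nat.rfindOpt (f n)).Dom := fun n => Nat.rfindOpt_dom.mpr (htot n)
  let φ : ℕ → ℕ := fun n => (Nat.rfindOpt (f n)).get (hdomf n)
  have hφc : Computable φ := by
    refine (Partrec.rfindOpt hf).of_eq (fun n => ?_)
    exact (Part.some_get (hdomf n)).symm
  have hφ : ∀ n, n < φ n ∧ φ n ∈ Poss E σ := by
    intro n
    obtain ⟨t, ht⟩ := Nat.rfindOpt_spec (Part.get_mem (hdomf n))
    exact hspec n t _ ht
  refine ⟨fun j => Nat.rec (φ a) (fun _ x => φ x) j, ?_, ?_, ?_⟩
  · exact Computable.nat_rec Computable.id (Computable.const (φ a))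
      ((hφc.comp (Computable.snd.comp Computable.snd)).to₂)
  · apply strictMono_nat_of_lt_succ
    intro j
    exact (hφ _).1
  · intro j
    cases j with
    | zero => exact hφ a
    | succ j =>
      refine ⟨?_, (hφ _).2⟩
      induction j with
      | zero => exact ((hφ a).1).trans (hφ _).1
      | succ j ih => exact ih.trans (hφ _).1

/-- the functional `E` fails on `H`: its output is finite, or it contains `a < b` with `hid b s = a` for
all large `s` -/
def Fails (E : List Bool × ℕ → Prop) (H : ℕ → Set ℕ) : Prop :=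
  (Output E H).Finite ∨ ∃ a b : ℕ, a < b ∧ a ∈ Output E H ∧ b ∈ Output E H ∧ ∀ᶠ s in atTop, hid b s = a

lemma Agrees.of_append {σ ρ : List Bool} {H : ℕ → Set ℕ} (h : Agrees (σ ++ ρ) H) : Agrees σ H := by
  have := h.take σ.length
  rwa [List.take_left'] at this
  rfl

lemma output_subset_poss (E : List Bool × ℕ → Prop) (σ : List Bool) (H : ℕ → Set ℕ) (hσ : Agrees σ H) :
    Output E H ⊆ Poss E σ := by
  rintro b ⟨τ, hτ, hEτ⟩
  set N := max σ.length τ.length with hN
  refine ⟨(seg H N).drop σ.length, τ.length, ?_⟩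
  have e1 : σ ++ (seg H N).drop σ.length = seg H N := by
    conv_lhs => rw [eq_seg hσ]
    rw [length_seg, ← take_seg H (le_max_left σ.length τ.length)]
    exact List.take_append_drop _ _
  rw [e1, take_seg H (le_max_right σ.length τ.length), ← eq_seg hτ]
  exact hEτ

/-- every functional can be made to fail by a finite extension -/
theorem force_one (E : List Bool × ℕ → Prop) (hE : REPred E) (σ : List Bool) :
    ∃ ρ : List Bool, ∀ H : ℕ → Set ℕ, Agrees (σ ++ ρ) H → Fails E H := by
  by_cases h : ∃ ρ : List Bool, (Poss E (σ ++ ρ)).Finite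
  · obtain ⟨ρ, hρ⟩ := h
    exact ⟨ρ, fun H hH => Or.inl (hρ.subset (output_subset_poss E _ H hH))⟩
  · have hinf : ∀ ρ : List Bool, (Poss E (σ ++ ρ)).Infinite := fun ρ hρ => h ⟨ρ, hρ⟩
    obtain ⟨a, ρ₁, i₁, h1⟩ := (hinf []).nonempty
    rw [List.append_nil] at h1
    obtain ⟨ψ, hψ, hmono, hψs⟩ := exists_search E hE (σ ++ ρ₁) (hinf ρ₁) a
    obtain ⟨j, hj⟩ := exists_hid_eq ψ hψ hmono.injective a
    obtain ⟨hab, ρ₂, i₂, h2⟩ := hψs j
    refine ⟨ρ₁ ++ ρ₂, fun H hH => Or.inr ⟨a, ψ j, hab, ?_, ?_, hj⟩⟩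
    · rw [← List.append_assoc] at hH
      exact ⟨_, hH.of_append.take i₁, h1⟩
    · rw [← List.append_assoc] at hH
      exact ⟨_, hH.take i₂, h2⟩

/-- finitely many functionals can be made to fail by a finite extension -/
theorem force_all (l : List (List Bool × ℕ → Prop)) (hl : ∀ E ∈ l, REPred E) (σ : List Bool) :
    ∃ ρ : List Bool, ∀ H : ℕ → Set ℕ, Agrees (σ ++ ρ) H → ∀ E ∈ l, Fails E H := by
  induction l generalizing σ with
  | nil => exact ⟨[], fun H _ E hE => absurd hE List.not_mem_nil⟩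
  | cons E l ih =>
    obtain ⟨ρ₁, h1⟩ := force_one E (hl E List.mem_cons_self) σ
    obtain ⟨ρ₂, h2⟩ := ih (fun E' hE' => hl E' (List.mem_cons_of_mem _ hE')) (σ ++ ρ₁)
    refine ⟨ρ₁ ++ ρ₂, fun H hH => ?_⟩
    rw [← List.append_assoc] at hH
    intro E' hE'
    rcases List.mem_cons.mp hE' with h | h
    · rw [h]
      exact h1 H hH.of_append
    · exact h2 H hH E' h

/-- if the functional fails, its output is not an infinite free set -/
theorem Fails.not_isFree {E : List Bool × ℕ → Prop} {H : ℕ → Set ℕ} (h : Fails E H) (n : ℕ) :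
    ¬ IsFree (n + 2) (fun x => hid (x 0) (x 1)) (Output E H) := by
  rintro ⟨hinf, hfree⟩
  rcases h with h | ⟨a, b, hab, ha, hb, hev⟩
  · exact hinf h
  obtain ⟨s₀, hs⟩ := eventually_atTop.mp hev
  set A' : Set ℕ := {y ∈ Output E H | max b s₀ < y} with hA'
  have hA'inf : A'.Infinite := by
    intro hfin
    apply hinf
    apply (hfin.union (Set.finite_Iic (max b s₀))).subset
    intro y hy
    rcases Nat.lt_or_ge (max b s₀) y with h1 | h1
    · exact Or.inl ⟨hy, h1⟩
    · exact Or.inr h1
  have : Infinite A' := hA'inf.to_subtype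
  classical
  let e := Nat.orderEmbeddingOfSet A'
  have he : ∀ i, e i ∈ A' := fun i => by
    have h1 : e i ∈ Set.range (Nat.orderEmbeddingOfSet A') := ⟨i, rfl⟩
    rwa [Nat.orderEmbeddingOfSet_range] at h1
  let x : Fin (n + 2) → ℕ := Fin.cons b (fun i : Fin (n + 1) => e i)
  have hx0 : x 0 = b := rfl
  have hxs : ∀ i : Fin (n + 1), x i.succ = e i := fun i => rfl
  have hmono : StrictMono x := by
    rw [Fin.strictMono_iff_lt_succ]
    intro i
    refine Fin.cases ?_ (fun i => ?_) i
    · have h1 := (he (0 : Fin (n + 1))).2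
      have h2 : x (Fin.castSucc (0 : Fin (n + 1))) = b := rfl
      rw [h2, hxs]
      exact lt_of_le_of_lt (le_max_left _ _) h1
    · have h2 : x (Fin.castSucc (Fin.succ i)) = e (i : ℕ) := by
        have : Fin.castSucc (Fin.succ i) = Fin.succ (Fin.castSucc i) := (Fin.succ_castSucc i).symm
        rw [this, hxs]
        rfl
      rw [h2, hxs]
      exact e.strictMono (by simp)
  have hxA : ∀ i, x i ∈ Output E H := by
    intro i
    refine Fin.cases hb (fun i => ?_) i
    rw [hxs]
    exact (he i).1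
  have hx1 : x 1 = e 0 := rfl
  have hval : hid (x 0) (x 1) = a := by
    rw [hx0, hx1]
    apply hs
    exact (le_max_right b s₀).trans (he 0).2.le
  obtain ⟨i, hi⟩ := hfree x hmono hxA (by
    change hid (x 0) (x 1) ∈ Output E H
    rw [hval]
    exact ha)
  change hid (x 0) (x 1) = x i at hi
  rw [hval] at hi
  have h1 : b ≤ x i := by
    rw [← hx0]
    exact hmono.monotone (Fin.zero_le i)
  omega

end Pool.Agent.Lib.MP_afd317_lc
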