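import Mathlib
import Pool.Agent.Lib.MP_afd317_lc.Search

/-!
# Arithmetical predicates, their approximations, iterated limits
-/

set_option autoImplicit false

namespace Pool.Agent.Lib.MP_afd317_lc

open Nat.Partrec (Code)
open Nat.Partrec.Code Filter

/-- `k` alternating quantifiers over natural numbers in front of `R`, the first one existential if the
first argument is `true`; the values of the variables are put in front of the list -/
def Alt (R : List ℕ → Bool) : Bool → ℕ → List ℕ → Prop
  | _, 0, acc => R acc = true
  | true, k + 1, acc => ∃ y, Alt R false k (y :: acc)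
  | false, k + 1, acc => ∀ y, Alt R true k (y :: acc)

/-- the same with quantifiers bounded by the entries of a second list -/
def approx (R : List ℕ → Bool) : Bool → ℕ → List ℕ → List ℕ → Bool
  | _, 0, acc, _ => R acc
  | true, k + 1, acc, l =>
    decide (∃ y ∈ List.range l.headI, approx R false k (y :: acc) l.tail = true)
  | false, k + 1, acc, l =>
    decide (∀ y ∈ List.range l.headI, approx R true k (y :: acc) l.tail = true)

/-- the filter on lists of length `k` of the iterated limit -/
def iterF : ℕ → Filter (List ℕ)
  | 0 => pure []
  | k + 1 => (atTop : Filter ℕ).bind (fun s => (iterF k).map (fun l => s :: l))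

lemma ev_succ {k : ℕ} {P : List ℕ → Prop} :
    (∀ᶠ l in iterF (k + 1), P l) ↔ ∀ᶠ s in (atTop : Filter ℕ), ∀ᶠ l in iterF k, P (s :: l) := by
  change (∀ᶠ l in (atTop : Filter ℕ).bind (fun s => (iterF k).map (fun l => s :: l)), P l) ↔ _
  rw [Filter.eventually_bind]
  exact Iff.rfl

lemma ev_zero {P : List ℕ → Prop} : (∀ᶠ l in iterF 0, P l) ↔ P [] := by
  unfold iterF
  rw [Filter.eventually_pure]

lemma approx_true_iff (R : List ℕ → Bool) (k : ℕ) (acc l : List ℕ) : approx R true (k + 1) acc l = true ↔
    ∃ y < l.headI, approx R false k (y :: acc) l.tail = true := by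
  rw [approx, decide_eq_true_iff]
  simp only [List.mem_range]

lemma approx_false_iff (R : List ℕ → Bool) (k : ℕ) (acc l : List ℕ) : approx R false (k + 1) acc l = true ↔
    ∀ y < l.headI, approx R true k (y :: acc) l.tail = true := by
  rw [approx, decide_eq_true_iff]
  simp only [List.mem_range]

lemma approx_spec (R : List ℕ → Bool) (t : Bool) (k : ℕ) (acc : List ℕ) :
    ∀ᶠ l in iterF k, (approx R t k acc l = true ↔ Alt R t k acc) := by
  induction k generalizing t acc with
  | zero =>
    rw [ev_zero]
    cases t <;> exact Iff.rfl
  | succ k ih =>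
    rw [ev_succ]
    cases t with
    | true =>
      by_cases h : ∃ y, Alt R false k (y :: acc)
      · obtain ⟨y, hy⟩ := h
        filter_upwards [eventually_gt_atTop y] with s hs
        filter_upwards [ih false (y :: acc)] with l hl
        rw [approx_true_iff]
        exact ⟨fun _ => ⟨y, hy⟩, fun _ => ⟨y, hs, hl.mpr hy⟩⟩
      · filter_upwards with s
        have h1 : ∀ᶠ l in iterF k, ∀ y ∈ Finset.range s,
            (approx R false k (y :: acc) l = true ↔ Alt R false k (y :: acc)) := by
          rw [Filter.eventually_all_finset]
          exact fun y _ => ih false (y :: acc)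
        filter_upwards [h1] with l hl
        rw [approx_true_iff]
        constructor
        · rintro ⟨y, hy, hy2⟩
          exact ⟨y, (hl y (Finset.mem_range.mpr hy)).mp hy2⟩
        · intro h2
          exact absurd h2 h
    | false =>
      by_cases h : ∀ y, Alt R true k (y :: acc)
      · filter_upwards with s
        have h1 : ∀ᶠ l in iterF k, ∀ y ∈ Finset.range s,
            (approx R true k (y :: acc) l = true ↔ Alt R true k (y :: acc)) := by
          rw [Filter.eventually_all_finset]
          exact fun y _ => ih true (y :: acc)
        filter_upwards [h1] with l hl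
        rw [approx_false_iff]
        constructor
        · exact fun _ => h
        · intro _ y hy
          exact (hl y (Finset.mem_range.mpr hy)).mpr (h y)
      · have h' := h
        push Not at h'
        obtain ⟨y, hy⟩ := h'
        filter_upwards [eventually_gt_atTop y] with s hs
        filter_upwards [ih true (y :: acc)] with l hl
        rw [approx_false_iff]
        constructor
        · intro h2
          exact absurd (hl.mp (h2 y hs)) hy
        · intro h2
          exact absurd h2 h

lemma alt_congr {R₁ R₂ : List ℕ → Bool} (t : Bool) (k : ℕ) (acc₁ acc₂ : List ℕ)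
    (h : ∀ ys, R₁ (ys ++ acc₁) = R₂ (ys ++ acc₂)) : Alt R₁ t k acc₁ ↔ Alt R₂ t k acc₂ := by
  induction k generalizing t acc₁ acc₂ with
  | zero =>
    have := h []
    rw [List.nil_append, List.nil_append] at this
    cases t <;> simp only [Alt, this]
  | succ k ih =>
    have h1 : ∀ y t, Alt R₁ t k (y :: acc₁) ↔ Alt R₂ t k (y :: acc₂) := by
      intro y t
      apply ih
      intro ys
      have := h (ys ++ [y])
      simpa using this
    cases t with
    | true => exact exists_congr fun y => h1 y false
    | false => exact forall_congr' fun y => h1 y true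

/-- the kind of the innermost one of `k + 1` alternating quantifiers -/
def inn : Bool → ℕ → Bool
  | t, 0 => t
  | t, k + 1 => inn (!t) k

/-- the universal matrix; the innermost variable also codes a number of steps -/
def univ (p : Bool) (cb : Code × ℕ) (acc : List ℕ) : Bool :=
  if p then decide (evaln acc.headI.unpair.2 cb.1
    (Encodable.encode (cb.2, acc.headI.unpair.1 :: acc.tail)) = some 1)
  else !decide (evaln acc.headI.unpair.2 cb.1
    (Encodable.encode (cb.2, acc.headI.unpair.1 :: acc.tail)) = some 0)

lemma univ_true_iff (c : Code) (b y : ℕ) (acc : List ℕ) : univ true (c, b) (y :: acc) = true ↔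
    evaln y.unpair.2 c (Encodable.encode (b, y.unpair.1 :: acc)) = some 1 := by
  unfold univ
  rw [if_pos rfl, decide_eq_true_iff]
  exact Iff.rfl

lemma univ_false_iff (c : Code) (b y : ℕ) (acc : List ℕ) : univ false (c, b) (y :: acc) = true ↔
    evaln y.unpair.2 c (Encodable.encode (b, y.unpair.1 :: acc)) ≠ some 0 := by
  unfold univ
  rw [if_neg (by decide), Bool.not_eq_true', decide_eq_false_iff_not]
  exact Iff.rfl

lemma alt_univ (R : List ℕ → Bool) (c : Code) (b : ℕ)
    (hc : ∀ ys : List ℕ, eval c (Encodable.encode (b, ys)) = Part.some (if R ys then 1 else 0))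
    (t : Bool) (k : ℕ) (acc : List ℕ) :
    Alt (univ (inn t k) (c, b)) t (k + 1) acc ↔ Alt R t (k + 1) acc := by
  induction k generalizing t acc with
  | zero =>
    cases t with
    | true =>
      change (∃ y, univ true (c, b) (y :: acc) = true) ↔ ∃ z, R (z :: acc) = true
      constructor
      · rintro ⟨y, hy⟩
        rw [univ_true_iff] at hy
        refine ⟨y.unpair.1, ?_⟩
        have h1 := evaln_sound (Option.mem_def.mpr hy)
        rw [hc] at h1
        have h2 := Part.mem_some_iff.mp h1
        by_contra h3
        rw [if_neg h3] at h2
        exact absurd h2 (by norm_num)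
      · rintro ⟨z, hz⟩
        have h1 : (1 : ℕ) ∈ eval c (Encodable.encode (b, z :: acc)) := by
          rw [hc, if_pos hz]
          exact Part.mem_some _
        obtain ⟨s, hs⟩ := evaln_complete.mp h1
        refine ⟨Nat.pair z s, ?_⟩
        rw [univ_true_iff, Nat.unpair_pair]
        exact hs
    | false =>
      change (∀ y, univ false (c, b) (y :: acc) = true) ↔ ∀ z, R (z :: acc) = true
      constructor
      · intro h z
        by_contra hz
        have h1 : (0 : ℕ) ∈ eval c (Encodable.encode (b, z :: acc)) := by
          rw [hc, if_neg hz]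
          exact Part.mem_some _
        obtain ⟨s, hs⟩ := evaln_complete.mp h1
        have h2 := h (Nat.pair z s)
        rw [univ_false_iff, Nat.unpair_pair] at h2
        exact h2 hs
      · intro h y
        rw [univ_false_iff]
        intro hy
        have h1 := evaln_sound (Option.mem_def.mpr hy)
        rw [hc, if_pos (h _)] at h1
        exact absurd (Part.mem_some_iff.mp h1) (by norm_num)
  | succ k ih =>
    cases t with
    | true => exact exists_congr fun y => ih false (y :: acc)
    | false => exact forall_congr' fun y => ih true (y :: acc)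

lemma primrec_univ (p : Bool) : Primrec₂ (univ p) := by
  have he : Primrec (fun v : (Code × ℕ) × List ℕ => evaln v.2.headI.unpair.2 v.1.1
      (Encodable.encode (v.1.2, v.2.headI.unpair.1 :: v.2.tail))) := by
    have hh : Primrec (fun v : (Code × ℕ) × List ℕ => v.2.headI.unpair) :=
      Primrec.unpair.comp (Primrec.list_headI.comp Primrec.snd)
    refine primrec_evaln.comp (Primrec.pair (Primrec.pair (Primrec.snd.comp hh)
      (Primrec.fst.comp Primrec.fst)) (Primrec.encode.comp (Primrec.pair (Primrec.snd.comp Primrec.fst)
      (Primrec.list_cons.comp (Primrec.fst.comp hh) (Primrec.list_tail.comp Primrec.snd)))))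
  have h1 : PrimrecPred (fun v : (Code × ℕ) × List ℕ => evaln v.2.headI.unpair.2 v.1.1
      (Encodable.encode (v.1.2, v.2.headI.unpair.1 :: v.2.tail)) = some 1) :=
    Primrec.eq.comp he (Primrec.const _)
  have h0 : PrimrecPred (fun v : (Code × ℕ) × List ℕ => evaln v.2.headI.unpair.2 v.1.1
      (Encodable.encode (v.1.2, v.2.headI.unpair.1 :: v.2.tail)) = some 0) :=
    Primrec.eq.comp he (Primrec.const _)
  cases p with
  | true =>
    refine h1.decide.of_eq (fun v => ?_)
    simp [univ]
  | false =>
    refine (Primrec.not.comp h0.decide).of_eq (fun v => ?_)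
    simp [univ]

lemma primrec_approx {α : Type} [Primcodable α] (R : α → List ℕ → Bool) (hR : Primrec₂ R) (t : Bool) (k : ℕ) :
    Primrec (fun v : (α × List ℕ) × List ℕ => approx (R v.1.1) t k v.1.2 v.2) := by
  induction k generalizing t with
  | zero =>
    cases t <;> exact hR.comp (Primrec.fst.comp Primrec.fst) (Primrec.snd.comp Primrec.fst)
  | succ k ih =>
    have hrel : ∀ t : Bool, PrimrecRel (fun (y : ℕ) (v : (α × List ℕ) × List ℕ) =>
        approx (R v.1.1) t k (y :: v.1.2) v.2.tail = true) := by
      intro t
      have hg : Primrec (fun p : ℕ × ((α × List ℕ) × List ℕ) =>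
          (((p.2.1.1, p.1 :: p.2.1.2), p.2.2.tail) : (α × List ℕ) × List ℕ)) :=
        Primrec.pair (Primrec.pair (Primrec.fst.comp (Primrec.fst.comp Primrec.snd))
          (Primrec.list_cons.comp Primrec.fst (Primrec.snd.comp (Primrec.fst.comp Primrec.snd))))
          (Primrec.list_tail.comp (Primrec.snd.comp Primrec.snd))
      exact Primrec.eq.comp ((ih t).comp hg) (Primrec.const true)
    have hl : Primrec (fun v : (α × List ℕ) × List ℕ => List.range v.2.headI) :=
      Primrec.list_range.comp (Primrec.list_headI.comp Primrec.snd)
    cases t with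
    | true =>
      have h1 := ((hrel false).exists_mem_list.comp hl Primrec.id).decide
      refine h1.of_eq (fun v => ?_)
      simp only [approx, id]
    | false =>
      have h1 := ((hrel true).forall_mem_list.comp hl Primrec.id).decide
      refine h1.of_eq (fun v => ?_)
      simp only [approx, id]

/-- an increasing list in an infinite set with a property holding in the iterated limit -/
lemma exists_incr (k : ℕ) (P : List ℕ → Prop) (h : ∀ᶠ l in iterF k, P l) (A : Set ℕ) (hA : A.Infinite)
    (u : ℕ) : ∃ l : List ℕ, l.length = k ∧ List.Pairwise (· < ·) (u :: l) ∧ (∀ y ∈ l, y ∈ A) ∧ P l := by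
  induction k generalizing P u with
  | zero =>
    rw [ev_zero] at h
    exact ⟨[], rfl, List.pairwise_singleton _ _, fun y hy => absurd hy List.not_mem_nil, h⟩
  | succ k ih =>
    rw [ev_succ, eventually_atTop] at h
    obtain ⟨s₀, hs⟩ := h
    obtain ⟨s, hsA, hgt⟩ := hA.exists_gt (max u s₀)
    obtain ⟨l, h1, h2, h3, h4⟩ := ih (fun l => P (s :: l)) (hs s (by omega)) s
    refine ⟨s :: l, by rw [List.length_cons, h1], ?_, ?_, h4⟩
    · rw [List.pairwise_cons]
      refine ⟨?_, h2⟩
      intro y hy
      rcases List.mem_cons.mp hy with rfl | hy
      · omega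
      · have := (List.pairwise_cons.mp h2).1 y hy
        omega
    · intro y hy
      rcases List.mem_cons.mp hy with rfl | hy
      · exact hsA
      · exact h3 y hy

end Pool.Agent.Lib.MP_afd317_lc
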