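import Mathlib
import Pool.Agent.Lib.MP_afd317_lc.Sig

/-!
# A computable function defeating all `Σ_(K+2)` functionals: the construction

`K + 1` iterated limits.
-/

set_option autoImplicit false

namespace Pool.Agent.Lib.MP_afd317_lc

open Nat.Partrec (Code)
open Nat.Partrec.Code Filter

/-- decoding of a number into a string, a finite set (as a number) and a list of witnesses -/
def dec (p : ℕ) : (List ℕ × ℕ) × List (ℕ × ℕ) := Denumerable.ofNat ((List ℕ × ℕ) × List (ℕ × ℕ)) p

/-- `b` is in the finite set coded by the binary digits of `D` -/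
def memD (D b : ℕ) : Bool := decide (D / 2 ^ b % 2 = 1)

/-- the elements larger than the second component of `i` of the finite set given by `p` -/
def dset (i p : ℕ) : List ℕ :=
  (List.range (dec p).1.2).filter (fun b => memD (dec p).1.2 b && decide (i.unpair.2 < b))

/-- the condition on `p` at `l` -/
def cond' (K : ℕ) (p : ℕ) (q : ℕ × List ℕ) : Prop :=
  (dset q.1 p).length = 2 ^ q.1 ∧
    approx (univ (inn false K) (Denumerable.ofNat Code q.1.unpair.1, p)) false (K + 1) [] q.2 = true

instance (K : ℕ) : DecidableRel (cond' K) := fun _ _ => by unfold cond'; infer_instance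

/-- the finite set claimed by the `i`-th requirement at `l` -/
def clist (K i : ℕ) (l : List ℕ) : List ℕ :=
  ((((List.range l.headI).filter (fun p => cond' K p (i, l))).head?).map (fun p => dset i p)).getD []

/-- `hidT K (b :: l) = a` for the least `i = (e, a) < l.headI` claiming `b` at `l` -/
def hidT (K : ℕ) (L : List ℕ) : ℕ :=
  ((((List.range L.tail.headI).filter (fun i => decide (∃ x ∈ clist K i L.tail, x = L.headI))).head?).map
    (fun i => i.unpair.2)).getD 0

lemma primrec_dset : Primrec₂ dset := by
  have hrel : PrimrecRel (fun (b : ℕ) (v : ℕ × ℕ) =>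
      (dec v.2).1.2 / 2 ^ b % 2 = 1 ∧ v.1.unpair.2 < b) := by
    have hd : Primrec (fun w : ℕ × (ℕ × ℕ) => (dec w.2.2).1.2) :=
      Primrec.snd.comp (Primrec.fst.comp ((Primrec.ofNat _).comp (Primrec.snd.comp Primrec.snd)))
    refine PrimrecPred.and ?_ ?_
    · exact Primrec.eq.comp (Primrec.nat_mod.comp (Primrec.nat_div.comp hd
        (primrec_two_pow.comp Primrec.fst)) (Primrec.const 2)) (Primrec.const 1)
    · exact Primrec.nat_lt.comp (Primrec.snd.comp (Primrec.unpair.comp (Primrec.fst.comp Primrec.snd)))
        Primrec.fst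
  have h1 := hrel.listFilter
  have h2 : Primrec (fun v : ℕ × ℕ => (List.range (dec v.2).1.2).filter
      (fun b => (dec v.2).1.2 / 2 ^ b % 2 = 1 ∧ v.1.unpair.2 < b)) :=
    h1.comp (Primrec.list_range.comp (Primrec.snd.comp (Primrec.fst.comp
      ((Primrec.ofNat _).comp Primrec.snd)))) Primrec.id
  refine h2.of_eq (fun v => ?_)
  unfold dset memD
  apply List.filter_congr
  intro b _
  rw [Bool.decide_and]

lemma primrec_cond (K : ℕ) : PrimrecRel (cond' K) := by
  refine PrimrecPred.and ?_ ?_
  · exact Primrec.eq.comp (Primrec.list_length.comp (primrec_dset.comp (Primrec.fst.comp Primrec.snd)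
      Primrec.fst)) (primrec_two_pow.comp (Primrec.fst.comp Primrec.snd))
  · have h := primrec_approx (univ (inn false K)) (primrec_univ (inn false K)) false (K + 1)
    have hg : Primrec (fun v : ℕ × (ℕ × List ℕ) =>
        ((((Denumerable.ofNat Code v.2.1.unpair.1, v.1), ([] : List ℕ)), v.2.2) :
          ((Code × ℕ) × List ℕ) × List ℕ)) :=
      Primrec.pair (Primrec.pair (Primrec.pair ((Primrec.ofNat Code).comp (Primrec.fst.comp
        (Primrec.unpair.comp (Primrec.fst.comp Primrec.snd)))) Primrec.fst)
        (Primrec.const [])) (Primrec.snd.comp Primrec.snd)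
    exact Primrec.eq.comp (h.comp hg) (Primrec.const true)

lemma primrec_clist (K : ℕ) : Primrec₂ (clist K) := by
  have h1 := (primrec_cond K).listFilter
  have h2 : Primrec (fun v : ℕ × List ℕ => (List.range v.2.headI).filter (fun p => cond' K p v)) :=
    h1.comp (Primrec.list_range.comp (Primrec.list_headI.comp Primrec.snd)) Primrec.id
  have h3 : Primrec (fun v : ℕ × List ℕ => ((((List.range v.2.headI).filter
      (fun p => cond' K p v)).head?).map (fun p => dset v.1 p)).getD []) := by
    refine Primrec.option_getD.comp ?_ (Primrec.const [])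
    refine Primrec.option_map (Primrec.list_head?.comp h2) ?_
    exact (primrec_dset.comp (Primrec.fst.comp Primrec.fst) Primrec.snd).to₂
  exact h3

theorem computable_hidT (K : ℕ) : Computable (hidT K) := by
  have hrel : PrimrecRel (fun (i : ℕ) (L : List ℕ) => ∃ x ∈ clist K i L.tail, x = L.headI) := by
    have h0 : PrimrecRel (fun (x b : ℕ) => x = b) := Primrec.eq
    exact h0.exists_mem_list.comp ((primrec_clist K).comp Primrec.fst (Primrec.list_tail.comp Primrec.snd))
      (Primrec.list_headI.comp Primrec.snd)
  have h1 := hrel.listFilter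
  have h2 : Primrec (fun L : List ℕ => (List.range L.tail.headI).filter
      (fun i => decide (∃ x ∈ clist K i L.tail, x = L.headI))) := by
    refine (h1.comp (Primrec.list_range.comp (Primrec.list_headI.comp Primrec.list_tail))
      Primrec.id).of_eq (fun L => ?_)
    rfl
  have h3 : Primrec (hidT K) := by
    unfold hidT
    refine Primrec.option_getD.comp ?_ (Primrec.const 0)
    refine Primrec.option_map (Primrec.list_head?.comp h2) ?_
    exact (Primrec.snd.comp (Primrec.unpair.comp Primrec.snd)).to₂
  exact h3.to_comp

lemma nodup_dset (i p : ℕ) : (dset i p).Nodup := by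
  unfold dset
  exact List.Nodup.filter _ List.nodup_range

lemma mem_dset {i p b : ℕ} (h : b ∈ dset i p) : memD (dec p).1.2 b = true ∧ i.unpair.2 < b := by
  unfold dset at h
  rw [List.mem_filter, Bool.and_eq_true, decide_eq_true_iff] at h
  exact h.2

lemma length_clist_le (K i : ℕ) (l : List ℕ) : (clist K i l).length ≤ 2 ^ i := by
  unfold clist
  cases h : ((List.range l.headI).filter (fun p => cond' K p (i, l))).head? with
  | none => simp
  | some p =>
    have h1 := List.mem_of_head? h
    rw [List.mem_filter] at h1
    have h2 : cond' K p (i, l) := of_decide_eq_true h1.2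
    simp only [Option.map_some, Option.getD_some]
    exact h2.1.le

lemma clist_eq {K i p : ℕ} {l : List ℕ} (hp : p < l.headI) (hc : cond' K p (i, l))
    (hlt : ∀ p' < p, ¬ cond' K p' (i, l)) : clist K i l = dset i p := by
  unfold clist
  have h : ((List.range l.headI).filter (fun p => cond' K p (i, l))).head? = some p := by
    rw [List.head?_filter, List.find?_range_eq_some]
    refine ⟨decide_eq_true hc, List.mem_range.mpr hp, fun j hj => ?_⟩
    rw [Bool.not_eq_true']
    exact decide_eq_false (hlt j hj)
  rw [h]
  rfl

/-- the exact condition -/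
def condT (K i p : ℕ) : Prop :=
  (dset i p).length = 2 ^ i ∧
    Alt (univ (inn false K) (Denumerable.ofNat Code i.unpair.1, p)) false (K + 1) []

lemma clist_lim {K i p : ℕ} (hc : condT K i p) (hlt : ∀ p' < p, ¬ condT K i p') :
    ∀ᶠ l in iterF (K + 1), clist K i l = dset i p := by
  have h1 : ∀ᶠ l in iterF (K + 1), ∀ p' ∈ Finset.range (p + 1), (cond' K p' (i, l) ↔ condT K i p') := by
    rw [Filter.eventually_all_finset]
    intro p' _
    filter_upwards [approx_spec (univ (inn false K) (Denumerable.ofNat Code i.unpair.1, p'))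
      false (K + 1) []] with l hl
    unfold cond' condT
    simp only
    rw [hl]
  have h2 : ∀ᶠ l in iterF (K + 1), p < l.headI := by
    rw [ev_succ]
    filter_upwards [eventually_gt_atTop p] with s hs
    exact Filter.Eventually.of_forall (fun l => by simpa using hs)
  filter_upwards [h1, h2] with l hl hi
  refine clist_eq hi ((hl p (Finset.mem_range.mpr (by omega))).mpr hc) (fun j hj => ?_)
  rw [hl j (Finset.mem_range.mpr (by omega))]
  exact hlt j hj

lemma hidT_eq {K b i : ℕ} {l : List ℕ} (hi : i < l.headI) (hc : b ∈ clist K i l)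
    (hlt : ∀ j < i, b ∉ clist K j l) : hidT K (b :: l) = i.unpair.2 := by
  unfold hidT
  have h : ((List.range (b :: l).tail.headI).filter
      (fun i => decide (∃ x ∈ clist K i (b :: l).tail, x = (b :: l).headI))).head? = some i := by
    rw [List.head?_filter, List.find?_range_eq_some]
    refine ⟨decide_eq_true ⟨b, hc, rfl⟩, List.mem_range.mpr hi, fun j hj => ?_⟩
    rw [Bool.not_eq_true']
    apply decide_eq_false
    rintro ⟨x, hx, rfl⟩
    exact hlt j hj hx
  rw [h]
  rfl

/-- the main property of the construction -/
theorem hidT_hit {K i p : ℕ} (hc : condT K i p) (hlt : ∀ p' < p, ¬ condT K i p') :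
    ∀ᶠ l in iterF (K + 1), ∃ b ∈ dset i p, hidT K (b :: l) = i.unpair.2 := by
  have h2 : ∀ᶠ l in iterF (K + 1), i < l.headI := by
    rw [ev_succ]
    filter_upwards [eventually_gt_atTop i] with s hs
    exact Filter.Eventually.of_forall (fun l => by simpa using hs)
  filter_upwards [clist_lim hc hlt, h2] with l hl hi
  have h3 : ((Finset.range i).biUnion (fun j => (clist K j l).toFinset)).card <
      (dset i p).toFinset.card := by
    rw [List.toFinset_card_of_nodup (nodup_dset i p), hc.1]
    calc ((Finset.range i).biUnion (fun j => (clist K j l).toFinset)).card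
        ≤ ∑ j ∈ Finset.range i, (clist K j l).toFinset.card := Finset.card_biUnion_le
      _ ≤ ∑ j ∈ Finset.range i, 2 ^ j :=
          Finset.sum_le_sum fun j _ => (List.toFinset_card_le _).trans (length_clist_le K j l)
      _ < 2 ^ i := by
          have h4 := Nat.geomSum_eq (le_refl 2) i
          rw [h4]
          have h5 : 1 ≤ 2 ^ i := Nat.one_le_two_pow
          omega
  obtain ⟨b, hb, hnb⟩ := Finset.exists_mem_notMem_of_card_lt_card h3
  rw [List.mem_toFinset] at hb
  refine ⟨b, hb, hidT_eq hi (by rw [hl]; exact hb) (fun j hj hbj => ?_)⟩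
  apply hnb
  rw [Finset.mem_biUnion]
  exact ⟨j, Finset.mem_range.mpr hj, List.mem_toFinset.mpr hbj⟩

end Pool.Agent.Lib.MP_afd317_lc
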