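import Mathlib
import Pool.Agent.Lib.MP_afd317_lc.Shp

/-!
# Forcing finitely many `Σ_(K+2)` functionals to fail
-/

set_option autoImplicit false

namespace Pool.Agent.Lib.MP_afd317_lc

open Nat.Partrec (Code)
open Nat.Partrec.Code Filter

/-- `E` is `Σ_k`: `k` alternating quantifiers over natural numbers, the first one existential, in front of
a computable matrix -/
def IsSigma (k : ℕ) (E : List Bool × ℕ → Prop) : Prop :=
  ∃ R : List Bool × ℕ → List ℕ → Bool, Computable₂ R ∧ ∀ q, E q ↔ Alt (R q) true k []

/-- the string coded by `p` -/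
def strOf (p : ℕ) : List Bool := (dec p).1.1.map (fun x => decide (x = 1))

/-- the prefix used for `b` -/
def preOf (σ : List Bool) (p b : ℕ) : List Bool := (σ ++ strOf p).take ((dec p).2.getD b (0, 0)).1

/-- the matrix of: all `b` in the finite set coded by `p` are outputs above `σ`, with witnesses -/
def jointR (R : List Bool × ℕ → List ℕ → Bool) (σ : List Bool) (p : ℕ) (ys : List ℕ) : Bool :=
  cond (memD (dec p).1.2 ys.reverse.headI.unpair.1)
    (R (preOf σ p ys.reverse.headI.unpair.1, ys.reverse.headI.unpair.1)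
      (((dec p).2.getD ys.reverse.headI.unpair.1 (0, 0)).2 ::
        ys.reverse.headI.unpair.2 :: ys.reverse.tail).reverse)
    true

lemma computable_jointR (R : List Bool × ℕ → List ℕ → Bool) (hR : Computable₂ R) (σ : List Bool) :
    Computable₂ (jointR R σ) := by
  have hr : Primrec (fun v : ℕ × List ℕ => v.2.reverse) := Primrec.list_reverse.comp Primrec.snd
  have hu : Primrec (fun v : ℕ × List ℕ => v.2.reverse.headI.unpair) :=
    Primrec.unpair.comp (Primrec.list_headI.comp hr)
  have hd : Primrec (fun v : ℕ × List ℕ => dec v.1) := (Primrec.ofNat _).comp Primrec.fst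
  have hw : Primrec (fun v : ℕ × List ℕ => (dec v.1).2.getD v.2.reverse.headI.unpair.1 (0, 0)) :=
    (Primrec.list_getD (0, 0)).comp (Primrec.snd.comp hd) (Primrec.fst.comp hu)
  have hmem : Primrec (fun v : ℕ × List ℕ => memD (dec v.1).1.2 v.2.reverse.headI.unpair.1) := by
    have h1 : PrimrecPred (fun v : ℕ × List ℕ =>
        (dec v.1).1.2 / 2 ^ v.2.reverse.headI.unpair.1 % 2 = 1) :=
      Primrec.eq.comp (Primrec.nat_mod.comp (Primrec.nat_div.comp (Primrec.snd.comp (Primrec.fst.comp hd))
        (primrec_two_pow.comp (Primrec.fst.comp hu))) (Primrec.const 2)) (Primrec.const 1)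
    refine h1.decide.of_eq (fun v => ?_)
    unfold memD
    congr
  have hm : Primrec (fun v : ℕ × List ℕ => strOf v.1) := by
    refine Primrec.list_map (Primrec.fst.comp (Primrec.fst.comp hd)) ?_
    exact (Primrec.eq.comp Primrec.snd (Primrec.const 1)).decide
  have hτ : Primrec (fun v : ℕ × List ℕ => preOf σ v.1 v.2.reverse.headI.unpair.1) :=
    Primrec.list_take.comp (Primrec.fst.comp hw) (Primrec.list_append.comp (Primrec.const σ) hm)
  have hy : Primrec (fun v : ℕ × List ℕ =>
      (((dec v.1).2.getD v.2.reverse.headI.unpair.1 (0, 0)).2 ::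
        v.2.reverse.headI.unpair.2 :: v.2.reverse.tail).reverse) :=
    Primrec.list_reverse.comp (Primrec.list_cons.comp (Primrec.snd.comp hw)
      (Primrec.list_cons.comp (Primrec.snd.comp hu) (Primrec.list_tail.comp hr)))
  exact Computable.cond hmem.to_comp (hR.comp (hτ.pair (Primrec.fst.comp hu)).to_comp hy.to_comp)
    (Computable.const true)

lemma alt_true {R : List ℕ → Bool} (t : Bool) (k : ℕ) (acc : List ℕ)
    (h : ∀ ys, R (ys ++ acc) = true) : Alt R t k acc := by
  induction k generalizing t acc with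
  | zero =>
    have := h []
    rw [List.nil_append] at this
    cases t <;> exact this
  | succ k ih =>
    have h1 : ∀ y t, Alt R t k (y :: acc) := by
      intro y t
      apply ih
      intro ys
      have := h (ys ++ [y])
      simpa using this
    cases t with
    | true => exact ⟨0, h1 0 false⟩
    | false => exact fun y => h1 y true

lemma joint_iff (K : ℕ) (R : List Bool × ℕ → List ℕ → Bool) (σ : List Bool) (p : ℕ) :
    Alt (jointR R σ p) false (K + 1) [] ↔ ∀ b, memD (dec p).1.2 b = true →
      Alt (R (preOf σ p b, b)) false (K + 1) [((dec p).2.getD b (0, 0)).2] := by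
  have e1 : Alt (jointR R σ p) false (K + 1) [] ↔ ∀ u, Alt (jointR R σ p) true K [u] := Iff.rfl
  have key : ∀ b x : ℕ, memD (dec p).1.2 b = true →
      (Alt (jointR R σ p) true K [Nat.pair b x] ↔
        Alt (R (preOf σ p b, b)) true K [x, ((dec p).2.getD b (0, 0)).2]) := by
    intro b x hb
    apply alt_congr
    intro ys
    unfold jointR
    simp only [List.reverse_append, List.reverse_cons, List.reverse_nil, List.nil_append,
      List.singleton_append, List.headI_cons, List.tail_cons, List.reverse_reverse, Nat.unpair_pair, hb,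
      cond_true, List.append_assoc]
  rw [e1]
  constructor
  · intro h b hb
    change ∀ x, Alt (R (preOf σ p b, b)) true K [x, ((dec p).2.getD b (0, 0)).2]
    intro x
    exact (key b x hb).mp (h (Nat.pair b x))
  · intro h u
    by_cases hb : memD (dec p).1.2 u.unpair.1 = true
    · have h1 := h u.unpair.1 hb
      have h2 : Alt (R (preOf σ p u.unpair.1, u.unpair.1)) true K
          [u.unpair.2, ((dec p).2.getD u.unpair.1 (0, 0)).2] := h1 u.unpair.2
      have h3 := (key u.unpair.1 u.unpair.2 hb).mpr h2
      rwa [Nat.pair_unpair] at h3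
    · apply alt_true
      intro ys
      unfold jointR
      simp only [List.reverse_append, List.reverse_cons, List.reverse_nil, List.nil_append,
        List.singleton_append, List.headI_cons]
      rw [Bool.not_eq_true] at hb
      rw [hb]
      rfl

/-- outputs forced by a number satisfying the condition -/
lemma output_of_joint {K : ℕ} {E : List Bool × ℕ → Prop} {R : List Bool × ℕ → List ℕ → Bool}
    (hE : ∀ q, E q ↔ Alt (R q) true (K + 2) []) {σ : List Bool} {p : ℕ}
    (hp : Alt (jointR R σ p) false (K + 1) []) {H : ℕ → Set ℕ} (hH : Agrees (σ ++ strOf p) H) {b : ℕ}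
    (hb : memD (dec p).1.2 b = true) : b ∈ Output E H := by
  refine ⟨preOf σ p b, hH.take _, ?_⟩
  rw [hE]
  exact ⟨_, (joint_iff K R σ p).mp hp b hb⟩

/-- infinitely many outputs give numbers satisfying the condition -/
lemma exists_joint {K : ℕ} {E : List Bool × ℕ → Prop} {R : List Bool × ℕ → List ℕ → Bool}
    (hE : ∀ q, E q ↔ Alt (R q) true (K + 2) []) {σ : List Bool} {H : ℕ → Set ℕ} (hH : Agrees σ H)
    (hinf : (Output E H).Infinite) (i : ℕ) :
    ∃ p, (dset i p).length = 2 ^ i ∧ Alt (jointR R σ p) false (K + 1) [] := by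
  classical
  have hinf' : {b ∈ Output E H | i.unpair.2 < b}.Infinite := by
    intro hfin
    apply hinf
    apply (hfin.union (Set.finite_Iic i.unpair.2)).subset
    intro y hy
    rcases Nat.lt_or_ge i.unpair.2 y with h1 | h1
    · exact Or.inl ⟨hy, h1⟩
    · exact Or.inr h1
  obtain ⟨S, hS, hcard⟩ := hinf'.exists_subset_card_eq (2 ^ i)
  have hax : ∀ b : ℕ, ∃ (τ : List Bool) (y : ℕ), b ∈ S →
      Agrees τ H ∧ Alt (R (τ, b)) false (K + 1) [y] := by
    intro b
    by_cases hb : b ∈ S
    · obtain ⟨⟨τ, hτ, hEτ⟩, _⟩ := hS hb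
      rw [hE] at hEτ
      obtain ⟨y, hy⟩ := hEτ
      exact ⟨τ, y, fun _ => ⟨hτ, hy⟩⟩
    · exact ⟨[], 0, fun h => absurd h hb⟩
  choose τ y hτy using hax
  set N : ℕ := max σ.length (S.sup (fun b => (τ b).length)) with hN
  have hN2 : ∀ b ∈ S, (τ b).length ≤ N := fun b hb =>
    (Finset.le_sup (f := fun b => (τ b).length) hb).trans (le_max_right _ _)
  set M : ℕ := S.sup id + 1 with hM
  have hM2 : ∀ b ∈ S, b < M := fun b hb => by
    have : b ≤ S.sup id := Finset.le_sup (f := id) hb
    omega
  set D : ℕ := Nat.ofBits (fun j : Fin M => decide ((j : ℕ) ∈ S)) with hD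
  have hbit : ∀ b, Nat.testBit D b = decide (b ∈ S) := by
    intro b
    rcases Nat.lt_or_ge b M with h | h
    · rw [hD, Nat.testBit_ofBits_lt _ _ h]
    · rw [hD, Nat.testBit_ofBits_ge _ _ h]
      have : b ∉ S := fun hb => absurd (hM2 b hb) (by omega)
      simp [this]
  have hmem : ∀ b, memD D b = decide (b ∈ S) := by
    intro b
    rw [← hbit b, Nat.testBit_eq_decide_div_mod_eq]
    rfl
  set wit : List (ℕ × ℕ) := (List.range M).map (fun b => ((τ b).length, y b)) with hwit
  have hwit2 : ∀ b ∈ S, wit.getD b (0, 0) = ((τ b).length, y b) := by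
    intro b hb
    have hb' := hM2 b hb
    rw [hwit, List.getD_eq_getElem _ _ (by simpa using hb')]
    simp
  set ρ : List Bool := (seg H N).drop σ.length with hρ
  have e0 : σ ++ ρ = seg H N := by
    rw [hρ]
    conv_lhs => rw [eq_seg hH]
    rw [length_seg, ← take_seg H (le_max_left σ.length (S.sup (fun b => (τ b).length)))]
    exact List.take_append_drop _ _
  refine ⟨Encodable.encode ((ρ.map (fun x => if x then 1 else 0), D), wit), ?_⟩
  have hdec : dec (Encodable.encode ((ρ.map (fun x => if x then 1 else 0), D), wit)) =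
      ((ρ.map (fun x => if x then 1 else 0), D), wit) := Denumerable.ofNat_encode _
  have hstr : strOf (Encodable.encode ((ρ.map (fun x => if x then 1 else 0), D), wit)) = ρ := by
    unfold strOf
    rw [hdec]
    simp only
    rw [List.map_map]
    conv_rhs => rw [← List.map_id ρ]
    apply List.map_congr_left
    intro x _
    cases x <;> simp
  constructor
  · have h1 : (dset i (Encodable.encode ((ρ.map (fun x => if x then 1 else 0), D), wit))).toFinset = S := by
      ext b
      rw [List.mem_toFinset]
      unfold dset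
      rw [hdec]
      simp only
      rw [List.mem_filter, List.mem_range, Bool.and_eq_true, decide_eq_true_iff, hmem b,
        decide_eq_true_iff]
      constructor
      · exact fun h => h.2.1
      · intro hb
        refine ⟨?_, hb, (hS hb).2⟩
        have h2 : Nat.testBit D b = true := by
          rw [hbit]
          exact decide_eq_true hb
        exact lt_of_lt_of_le Nat.lt_two_pow_self (Nat.ge_two_pow_of_testBit h2)
    rw [← List.toFinset_card_of_nodup (nodup_dset i _), h1, hcard]
  · rw [joint_iff]
    intro b hb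
    rw [hdec] at hb ⊢
    simp only at hb ⊢
    rw [hmem b, decide_eq_true_iff] at hb
    rw [hwit2 b hb]
    simp only
    have h1 : preOf σ (Encodable.encode ((ρ.map (fun x => if x then 1 else 0), D), wit)) b = τ b := by
      unfold preOf
      rw [hstr, hdec]
      simp only
      rw [hwit2 b hb, e0]
      simp only
      rw [take_seg H (hN2 b hb), ← eq_seg (hτy b hb).1]
    rw [h1]
    exact (hτy b hb).2

/-- the functional `E` fails on `H`: its output is finite, or it contains a number `a` and a finite set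
`D` of larger numbers such that `hidT K (b :: l) = a` for some `b` in `D`, for all `l` in the iterated limit -/
def FailsT (K : ℕ) (E : List Bool × ℕ → Prop) (H : ℕ → Set ℕ) : Prop :=
  (Output E H).Finite ∨ ∃ (a : ℕ) (D : List ℕ), a ∈ Output E H ∧ (∀ b ∈ D, a < b ∧ b ∈ Output E H) ∧
    ∀ᶠ l in iterF (K + 1), ∃ b ∈ D, hidT K (b :: l) = a

theorem force_oneT (K : ℕ) (E : List Bool × ℕ → Prop) (hE : IsSigma (K + 2) E) (σ : List Bool) :
    ∃ ρ : List Bool, ∀ H : ℕ → Set ℕ, Agrees (σ ++ ρ) H → FailsT K E H := by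
  classical
  obtain ⟨R, hR, hER⟩ := hE
  rcases Set.eq_empty_or_nonempty (Poss E σ) with h | ⟨a, ρ₁, i₁, h1⟩
  · refine ⟨[], fun H hH => Or.inl ?_⟩
    rw [List.append_nil] at hH
    have := output_subset_poss E σ H hH
    rw [h] at this
    exact Set.finite_empty.subset this
  · have hcomp := computable_jointR R hR (σ ++ ρ₁)
    have h2 : Computable (fun q : ℕ × List ℕ => cond (jointR R (σ ++ ρ₁) q.1 q.2) 1 0) :=
      Computable.cond hcomp (Computable.const 1) (Computable.const 0)
    obtain ⟨c, hc⟩ := exists_code.mp (show Nat.Partrec _ from h2)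
    have hcode : ∀ (p : ℕ) (ys : List ℕ), eval c (Encodable.encode (p, ys)) =
        Part.some (if jointR R (σ ++ ρ₁) p ys then 1 else 0) := by
      intro p ys
      rw [hc]
      cases h : jointR R (σ ++ ρ₁) p ys <;> simp [h]
    set i : ℕ := Nat.pair (Encodable.encode c) a with hi
    have hi1 : Denumerable.ofNat Code i.unpair.1 = c := by
      rw [hi, Nat.unpair_pair]
      exact Denumerable.ofNat_encode c
    have hi2 : i.unpair.2 = a := by rw [hi, Nat.unpair_pair]
    have hcond : ∀ p, condT K i p ↔
        (dset i p).length = 2 ^ i ∧ Alt (jointR R (σ ++ ρ₁) p) false (K + 1) [] := by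
      intro p
      unfold condT
      rw [hi1, alt_univ (jointR R (σ ++ ρ₁) p) c p (hcode p) false K []]
    by_cases hP : ∃ p, condT K i p
    · have hp := Nat.find_spec hP
      have hmin : ∀ p' < Nat.find hP, ¬ condT K i p' := fun p' hp' => Nat.find_min hP hp'
      have hhit := hidT_hit hp hmin
      rw [hi2] at hhit
      have hjoint := ((hcond _).mp hp).2
      refine ⟨ρ₁ ++ strOf (Nat.find hP), fun H hH => Or.inr ⟨a, dset i (Nat.find hP), ?_, ?_, hhit⟩⟩
      · rw [← List.append_assoc] at hH
        exact ⟨_, hH.of_append.take i₁, h1⟩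
      · intro b hb
        rw [← List.append_assoc] at hH
        have h3 := mem_dset hb
        rw [hi2] at h3
        exact ⟨h3.2, output_of_joint hER hjoint hH h3.1⟩
    · refine ⟨ρ₁, fun H hH => Or.inl ?_⟩
      by_contra hinf
      obtain ⟨p, hp⟩ := exists_joint hER hH hinf i
      exact hP ⟨p, (hcond p).mpr hp⟩

theorem force_allT (K : ℕ) (l : List (List Bool × ℕ → Prop)) (hl : ∀ E ∈ l, IsSigma (K + 2) E)
    (σ : List Bool) :
    ∃ ρ : List Bool, ∀ H : ℕ → Set ℕ, Agrees (σ ++ ρ) H → ∀ E ∈ l, FailsT K E H := by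
  induction l generalizing σ with
  | nil => exact ⟨[], fun H _ E hE => absurd hE List.not_mem_nil⟩
  | cons E l ih =>
    obtain ⟨ρ₁, h1⟩ := force_oneT K E (hl E List.mem_cons_self) σ
    obtain ⟨ρ₂, h2⟩ := ih (fun E' hE' => hl E' (List.mem_cons_of_mem _ hE')) (σ ++ ρ₁)
    refine ⟨ρ₁ ++ ρ₂, fun H hH => ?_⟩
    rw [← List.append_assoc] at hH
    intro E' hE'
    rcases List.mem_cons.mp hE' with h | h
    · rw [h]
      exact h1 H hH.of_append
    · exact h2 H hH E' h

lemma exists_tuple (L : List ℕ) (m : ℕ) (h : L.length = m) (hL : L.Pairwise (· < ·)) :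
    ∃ x : Fin m → ℕ, List.ofFn x = L ∧ StrictMono x ∧ ∀ i, x i ∈ L := by
  subst h
  refine ⟨L.get, List.ofFn_get L, ?_, fun i => List.get_mem L i⟩
  intro i j hij
  exact List.pairwise_iff_get.mp hL i j hij

theorem FailsT.not_isFree {K : ℕ} {E : List Bool × ℕ → Prop} {H : ℕ → Set ℕ} (h : FailsT K E H) :
    ¬ IsFree (K + 2) (fun x => hidT K (List.ofFn x)) (Output E H) := by
  rintro ⟨hinf, hfree⟩
  rcases h with h | ⟨a, D, ha, hD, hev⟩
  · exact hinf h
  obtain ⟨l, hlen, hpw, hlA, b, hbD, hval⟩ := exists_incr (K + 1) _ hev (Output E H) hinf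
    (D.foldr max 0)
  have hbmax : ∀ b' ∈ D, b' ≤ D.foldr max 0 := fun b' hb' => List.le_max_of_le' 0 hb' le_rfl
  have hpw' : (b :: l).Pairwise (· < ·) := by
    rw [List.pairwise_cons] at hpw ⊢
    exact ⟨fun y hy => lt_of_le_of_lt (hbmax b hbD) (hpw.1 y hy), hpw.2⟩
  obtain ⟨x, hx, hmono, hmem⟩ := exists_tuple (b :: l) (K + 2) (by rw [List.length_cons, hlen]) hpw'
  have hxA : ∀ i, x i ∈ Output E H := by
    intro i
    rcases List.mem_cons.mp (hmem i) with h | h
    · rw [h]
      exact (hD b hbD).2
    · exact hlA _ h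
  have hge : ∀ i, b ≤ x i := by
    intro i
    rcases List.mem_cons.mp (hmem i) with h | h
    · rw [h]
    · exact ((List.pairwise_cons.mp hpw').1 _ h).le
  have hv : hidT K (List.ofFn x) = a := by rw [hx, hval]
  obtain ⟨i, hi⟩ := hfree x hmono hxA (by
    change hidT K (List.ofFn x) ∈ Output E H
    rw [hv]
    exact ha)
  change hidT K (List.ofFn x) = x i at hi
  rw [hv] at hi
  have h1 := hge i
  have h2 := (hD b hbD).1
  omega

end Pool.Agent.Lib.MP_afd317_lc
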